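import Pool.Agent.H574R3.CS.Stmts

/-! Task Odd1 of the project H574-CS (helper278). -/

set_option autoImplicit false

namespace Pool.Agent.H574R3.CS

open Polynomial

/-- existence of a square value in odd characteristic -/
theorem odd1_square (hA : TaskA) (hC : TaskC) (K : Type) [Field K] [Fintype K] (h2 : (2 : K) ≠ 0)
    (a b c d h1 h2' h3 l1 l2 k : K)
    (han : ∀ X Y : K, a * X ^ 3 + b * (X ^ 2 * Y) + c * (X * Y ^ 2) + d * Y ^ 3 = 0 →
      X = 0 ∧ Y = 0) :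
    ∃ X Y w : K, a * X ^ 3 + b * (X ^ 2 * Y) + c * (X * Y ^ 2) + d * Y ^ 3 +
      h1 * X ^ 2 + h2' * (X * Y) + h3 * Y ^ 2 + l1 * X + l2 * Y + k = -w ^ 2 := by
  have ha : a ≠ 0 := by
    intro ha
    have := (han 1 0 (by rw [ha]; ring)).1
    exact one_ne_zero this
  have hcard0 : ((Fintype.card K : ℕ) : K) = 0 := FiniteField.cast_card_eq_zero K
  by_cases h5 : 5 ≤ Fintype.card K
  · have hchar : ringChar K ≠ 2 := by
      intro h
      apply h2
      have := (ringChar.spec K 2).2 (by rw [h])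
      exact_mod_cast this
    let g : K[X] := C (-a) * X ^ 3 + C (-h1) * X ^ 2 + C (-l1) * X + C (-k)
    have hg : g.natDegree = 3 := natDegree_cubic (neg_ne_zero.2 ha)
    obtain ⟨s, w, hw⟩ := hA K hchar h5 g hg
    refine ⟨s, 0, w, ?_⟩
    have : g.eval s = (-a) * s ^ 3 + (-h1) * s ^ 2 + (-l1) * s + (-k) := by
      simp [g]
    rw [this] at hw
    linear_combination -hw
  · have h1lt : 1 < Fintype.card K := Fintype.one_lt_card
    have h3c : Fintype.card K = 3 := by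
      push Not at h5
      interval_cases hc : Fintype.card K
      · exfalso; apply h2; exact_mod_cast hcard0
      · rfl
      · exfalso
        apply h2
        have h4 : (2 : K) * 2 = 0 := by
          have : ((4 : ℕ) : K) = 0 := hcard0
          push_cast at this
          linear_combination this
        exact (mul_self_eq_zero.1 h4)
    obtain ⟨X, Y, w, hw⟩ := hC K h3c a b c d h1 h2' h3 l1 l2 k (fun X Y h => han X Y (by
      linear_combination h))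
    refine ⟨X, Y, w, ?_⟩
    linear_combination -hw

theorem taskOdd1 : TaskOdd1 := by
  intro hA hC hAff hT1 hT2 K _ _ a n h2 hn hq1 hq2 hq3 han
  -- step 1: remove `m`
  obtain ⟨hN1, hC1⟩ := hAff hT1 hT2 K a n 0 0 (-n.m1 / 2) (-n.m2 / 2) (-n.m3 / 2) hn hq1 hq2 hq3
  set a1 := tr a (affM 0 0 (-n.m1 / 2) (-n.m2 / 2) (-n.m3 / 2)) with ha1
  set n1 := n.aff 0 0 (-n.m1 / 2) (-n.m2 / 2) (-n.m3 / 2) with hn1
  have hm1 : n1.m1 = 0 := by
    show n.m1 + 2 * (-n.m1 / 2) = 0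
    field_simp
    ring
  have hm2 : n1.m2 = 0 := by
    show n.m2 + 2 * (-n.m2 / 2) = 0
    field_simp
    ring
  have hm3 : n1.m3 = 0 := by
    show (n.m1 * 0 + n.m2 * 0 + n.m3) + 2 * (-n.m3 / 2) = 0
    field_simp
    ring
  have hna : n1.a = n.a := rfl
  have hnb : n1.b = n.b := rfl
  have hnc : n1.c = n.c := rfl
  have hnd : n1.d = n.d := rfl
  have han1 : n1.Aniso := by
    intro X Y h
    exact han X Y h
  obtain ⟨X0, Y0, w, hw⟩ := odd1_square hA hC K h2 n1.a n1.b n1.c n1.d n1.h1 n1.h2 n1.h3 n1.l1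
    n1.l2 n1.k han1
  -- step 2: translate
  obtain ⟨hN2, hC2⟩ := hAff hT1 hT2 K a1 n1 X0 Y0 0 0 0 hN1 rfl rfl rfl
  refine ⟨tr a1 (affM X0 Y0 0 0 0), n1.aff X0 Y0 0 0 0, w, hN2, rfl, rfl, rfl, ?_, ?_, ?_, ?_, ?_,
    fun h => hC1 (hC2 h)⟩
  · show n1.m1 + 2 * 0 = 0
    rw [hm1]; ring
  · show n1.m2 + 2 * 0 = 0
    rw [hm2]; ring
  · show (n1.m1 * X0 + n1.m2 * Y0 + n1.m3) + 2 * 0 = 0
    rw [hm1, hm2, hm3]; ring
  · intro X Y h
    exact han1 X Y h
  · show n1.k + n1.a * X0 ^ 3 + n1.b * (X0 ^ 2 * Y0) + n1.c * (X0 * Y0 ^ 2) + n1.d * Y0 ^ 3 +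
      n1.h1 * X0 ^ 2 + n1.h2 * (X0 * Y0) + n1.h3 * Y0 ^ 2 + n1.l1 * X0 + n1.l2 * Y0 + 0 ^ 2 +
      0 * (n1.m1 * X0 + n1.m2 * Y0 + n1.m3) = -w ^ 2
    linear_combination hw

end Pool.Agent.H574R3.CS
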